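import Pool.Agent.E8helper40.CC.Descent

/-!
# The cone conjecture for finite quotients of products
-/

set_option autoImplicit false

open scoped NNReal

namespace Pool.Agent.Results.MP_e49dc9_ag.QuotientsOfProductsH40

open Pool.Agent.E8helper40.CC Pool.Agent.E8helper40.CC.Cones

/-- Let `X = P_1 × ⋯ × P_r` be a product of projective varieties such that `N^1(X)` is the direct
sum of the spaces `N^1(P_j)`, let `G` be a finite group of automorphisms of `X`, and `Y = X / G`.
Assume that the kernel of the action of `Aut(X)` on `N^1(X)` is abelian-by-finite in the sense of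
`AbelianByFinite` (automatic if `K_X ≡ 0`). If the cone conjecture holds for all `P_j`, then it
holds for `Y`. -/
theorem result {r : ℕ} (P : Fin r → Cones) (hP : ∀ j, (P j).IsProjective) (X Y : Cones)
    (hX : X.IsProjective) (hY : Y.IsProjective)
    (e : (Fin X.ρ → ℝ) ≃ₗ[ℝ] (∀ j, Fin (P j).ρ → ℝ)) (he : IsProduct P X e)
    (hB : X.AbelianByFinite) (G : Subgroup X.Aut) [Finite G]
    (p : (Fin Y.ρ → ℝ) →ₗ[ℝ] (Fin X.ρ → ℝ)) (hp : IsQuotient X Y G p)
    (h : ∀ j, (P j).ConeConjecture) : Y.ConeConjecture :=
  (descent hX hY hp hB (product hX hP he h)).conj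

end Pool.Agent.Results.MP_e49dc9_ag.QuotientsOfProductsH40
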